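import Mathlib

namespace Pool.Agent.Results.MP_80b119_nt.No

lemma nth_eq (k p : ℕ) (hp : p.Prime) (h : Nat.count Nat.Prime p = k) :
    Nat.nth Nat.Prime k = p := by
  rw [← h]
  exact Nat.nth_count hp

theorem result :
    ¬ ∀ n : ℕ, Squarefree ((∏ k ∈ Finset.range n, Nat.nth Nat.Prime k) ^ 2 + 1) := by
  intro h
  have h9 := h 9
  have h0 := nth_eq 0 2 (by norm_num) (by decide +kernel)
  have h1 := nth_eq 1 3 (by norm_num) (by decide +kernel)
  have h2 := nth_eq 2 5 (by norm_num) (by decide +kernel)
  have h3 := nth_eq 3 7 (by norm_num) (by decide +kernel)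
  have h4 := nth_eq 4 11 (by norm_num) (by decide +kernel)
  have h5 := nth_eq 5 13 (by norm_num) (by decide +kernel)
  have h6 := nth_eq 6 17 (by norm_num) (by decide +kernel)
  have h7 := nth_eq 7 19 (by norm_num) (by decide +kernel)
  have h8 := nth_eq 8 23 (by norm_num) (by decide +kernel)
  simp only [Finset.prod_range_succ, Finset.prod_range_zero, h0, h1, h2, h3, h4, h5, h6, h7,
    h8] at h9
  have h29 := h9 29 (by norm_num)
  rw [Nat.isUnit_iff] at h29
  omega

end Pool.Agent.Results.MP_80b119_nt.No
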